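import Mathlib

set_option autoImplicit false

/-!
Supersaturation in the cube from the Krawtchouk polynomials (project HG of helper549).
-/

namespace Pool.Agent.N368.CG

open Finset

variable {n : ℕ}

/-- the sign of a bit -/
noncomputable def sg (b : Bool) : ℝ := if b then -1 else 1

/-- the sign of a set -/
noncomputable def tau (T : Finset (Fin n)) (i : Fin n) : ℝ := if i ∈ T then -1 else 1

/-- the places where two words differ -/
def dl (x y : Fin n → Bool) : Finset (Fin n) := univ.filter (fun i => x i ≠ y i)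

theorem sum_prod (c : Fin n → ℝ) : ∑ S : Finset (Fin n), ∏ i ∈ S, c i = ∏ i, (1 + c i) := by
  rw [prod_one_add, powerset_univ]

theorem orth (x y : Fin n → Bool) (T : Finset (Fin n)) :
    ∑ S : Finset (Fin n), ∏ i ∈ S, (sg (x i) * sg (y i) * tau T i) = if T = dl x y then (2 : ℝ) ^ n else 0 := by
  rw [sum_prod]
  have hterm : ∀ i, 1 + sg (x i) * sg (y i) * tau T i = if (i ∈ T ↔ x i ≠ y i) then 2 else 0 := by
    intro i
    unfold sg tau
    by_cases hT : i ∈ T <;> cases hx : x i <;> cases hy : y i <;> simp [hT] <;> norm_num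
  by_cases h : T = dl x y
  · rw [if_pos h]
    have h1 : ∀ i ∈ (univ : Finset (Fin n)), 1 + sg (x i) * sg (y i) * tau T i = 2 := by
      intro i _
      rw [hterm i, if_pos]
      rw [h, dl, mem_filter]
      simp
    rw [prod_congr rfl h1, prod_const, card_univ, Fintype.card_fin]
  · rw [if_neg h]
    have h2 : ∃ i, ¬ (i ∈ T ↔ x i ≠ y i) := by
      by_contra hcon
      push Not at hcon
      apply h
      ext i
      rw [dl, mem_filter]
      have := hcon i
      constructor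
      · intro hi
        exact ⟨mem_univ _, this.1 hi⟩
      · intro hi
        exact this.2 hi.2
    obtain ⟨i, hi⟩ := h2
    apply prod_eq_zero (mem_univ i)
    rw [hterm i, if_neg hi]

/-- the Fourier coefficients -/
noncomputable def ft (f : (Fin n → Bool) → ℝ) (S : Finset (Fin n)) : ℝ := ∑ x, f x * ∏ i ∈ S, sg (x i)

theorem ft_sq (f : (Fin n → Bool) → ℝ) (T : Finset (Fin n)) :
    ∑ S, ft f S ^ 2 * ∏ i ∈ S, tau T i = ∑ x, ∑ y, f x * f y * (if T = dl x y then (2 : ℝ) ^ n else 0) := by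
  have h1 : ∀ S : Finset (Fin n), ft f S ^ 2 * ∏ i ∈ S, tau T i =
      ∑ x, ∑ y, f x * f y * ∏ i ∈ S, (sg (x i) * sg (y i) * tau T i) := by
    intro S
    unfold ft
    rw [sq, sum_mul_sum, sum_mul]
    refine sum_congr rfl fun x _ => ?_
    rw [sum_mul]
    refine sum_congr rfl fun y _ => ?_
    rw [prod_mul_distrib, prod_mul_distrib]
    ring
  rw [sum_congr rfl fun S _ => h1 S, sum_comm]
  refine sum_congr rfl fun x _ => ?_
  rw [sum_comm]
  refine sum_congr rfl fun y _ => ?_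
  rw [← mul_sum, orth]

theorem parseval (f : (Fin n → Bool) → ℝ) : ∑ S, ft f S ^ 2 = 2 ^ n * ∑ x, f x ^ 2 := by
  have h := ft_sq f ∅
  have h1 : ∀ S : Finset (Fin n), ft f S ^ 2 * ∏ i ∈ S, tau (∅ : Finset (Fin n)) i = ft f S ^ 2 := by
    intro S
    rw [prod_eq_one, mul_one]
    intro i _
    unfold tau
    simp
  rw [sum_congr rfl fun S _ => h1 S] at h
  rw [h, mul_sum]
  refine sum_congr rfl fun x _ => ?_
  rw [sum_eq_single x]
  · rw [if_pos]
    · ring
    · unfold dl
      simp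
  · intro y _ hy
    rw [if_neg, mul_zero]
    intro hd
    apply hy
    funext i
    by_contra hne
    have : i ∈ dl x y := by
      unfold dl
      rw [mem_filter]
      exact ⟨mem_univ _, fun h => hne h.symm⟩
    rw [← hd] at this
    exact notMem_empty _ this
  · intro h
    exact absurd (mem_univ x) h

/-- the eigenvalues -/
noncomputable def lam (D : ℕ) (S : Finset (Fin n)) : ℝ :=
  ∑ T ∈ univ.filter (fun T : Finset (Fin n) => #T ≤ D), ∏ i ∈ S, tau T i

theorem pairs (f : (Fin n → Bool) → ℝ) (D : ℕ) :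
    ∑ S, ft f S ^ 2 * lam D S = 2 ^ n * ∑ x, f x * ∑ y with hammingDist x y ≤ D, f y := by
  unfold lam
  simp only [mul_sum]
  rw [sum_comm]
  rw [sum_congr rfl fun T _ => ft_sq f T, sum_comm]
  refine sum_congr rfl fun x _ => ?_
  rw [sum_comm, sum_filter]
  refine sum_congr rfl fun y _ => ?_
  rw [← mul_sum]
  have hd : #(dl x y) = hammingDist x y := rfl
  by_cases h : hammingDist x y ≤ D
  · rw [if_pos h, sum_eq_single (dl x y)]
    · rw [if_pos rfl]
      ring
    · intro T _ hT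
      rw [if_neg hT]
    · intro hT
      exact absurd (mem_filter.2 ⟨mem_univ _, by rw [hd]; exact h⟩) hT
  · rw [if_neg h, sum_eq_zero, mul_zero]
    intro T hT
    rw [if_neg]
    intro hcon
    rw [mem_filter] at hT
    apply h
    rw [← hd, ← hcon]
    exact hT.2

/-- The Krawtchouk polynomials. -/
def K (n k x : ℕ) : ℤ := ∑ j ∈ range (k + 1), (-1) ^ j * (x.choose j : ℤ) * ((n - x).choose (k - j) : ℤ)

open Polynomial in
theorem gen (S : Finset (Fin n)) : ∑ T : Finset (Fin n), (C (∏ i ∈ T, (if i ∈ S then (-1 : ℤ) else 1)) * X ^ #T : ℤ[X]) =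
    (1 + C (-1) * X) ^ #S * (1 + X) ^ (n - #S) := by
  have h1 : ∀ T ∈ (univ : Finset (Finset (Fin n))), (C (∏ i ∈ T, (if i ∈ S then (-1 : ℤ) else 1)) * X ^ #T : ℤ[X]) =
      ∏ i ∈ T, (C (if i ∈ S then (-1 : ℤ) else 1) * X) := by
    intro T _
    rw [prod_mul_distrib, prod_const, map_prod]
  rw [sum_congr rfl h1, ← powerset_univ, ← prod_one_add, ← prod_mul_prod_compl S]
  congr 1
  · rw [← prod_const]
    exact prod_congr rfl fun i hi => by rw [if_pos hi]
  · have h2 : n - #S = #(Sᶜ) := by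
      rw [card_compl, Fintype.card_fin]
    rw [h2, ← prod_const]
    refine prod_congr rfl fun i hi => ?_
    rw [if_neg (mem_compl.1 hi), map_one, one_mul]

open Polynomial in
theorem coef (j : ℕ) (S : Finset (Fin n)) :
    ∑ T ∈ univ.filter (fun T : Finset (Fin n) => #T = j), ∏ i ∈ T, (if i ∈ S then (-1 : ℤ) else 1) = K n j #S := by
  have h := congrArg (fun q : ℤ[X] => q.coeff j) (gen S)
  simp only [finsetSum_coeff, coeff_C_mul, coeff_X_pow] at h
  rw [sum_filter]
  have h1 : ∑ T : Finset (Fin n), (if #T = j then ∏ i ∈ T, (if i ∈ S then (-1 : ℤ) else 1) else 0) =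
      ∑ T : Finset (Fin n), (∏ i ∈ T, (if i ∈ S then (-1 : ℤ) else 1)) * (if j = #T then 1 else 0) := by
    refine sum_congr rfl fun T _ => ?_
    by_cases hT : #T = j
    · rw [if_pos hT, if_pos hT.symm, mul_one]
    · rw [if_neg hT, if_neg (fun h => hT h.symm), mul_zero]
  rw [h1, h, coeff_mul, Finset.Nat.sum_antidiagonal_eq_sum_range_succ_mk]
  unfold K
  refine sum_congr rfl fun k _ => ?_
  have e1 : ((1 + C (-1) * X : ℤ[X]) ^ #S) = ((1 + X : ℤ[X]) ^ #S).comp (C (-1) * X) := by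
    simp
  rw [e1, comp_C_mul_X_coeff, coeff_one_add_X_pow, coeff_one_add_X_pow]
  ring

theorem tau_symm (S T : Finset (Fin n)) : ∏ i ∈ S, tau T i = ((∏ i ∈ T, (if i ∈ S then (-1 : ℤ) else 1) : ℤ) : ℝ) := by
  unfold tau
  rw [Int.cast_prod, prod_ite_mem]
  have h1 : ∏ i ∈ T, (((if i ∈ S then (-1 : ℤ) else 1 : ℤ)) : ℝ) = ∏ i ∈ T, (if i ∈ S then (-1 : ℝ) else 1) := by
    refine prod_congr rfl fun i _ => ?_
    split_ifs <;> simp
  rw [h1, prod_ite_mem, inter_comm]

theorem lam_eq (D : ℕ) (S : Finset (Fin n)) : lam D S = ((∑ j ∈ range (D + 1), K n j #S : ℤ) : ℝ) := by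
  unfold lam
  rw [sum_congr rfl fun T _ => tau_symm S T, ← Int.cast_sum]
  congr 1
  rw [← sum_congr rfl fun j _ => coef j S]
  rw [← sum_biUnion]
  · refine sum_congr ?_ fun _ _ => rfl
    ext T
    simp only [mem_filter, mem_univ, true_and, mem_biUnion, mem_range]
    constructor
    · intro h
      exact ⟨#T, by omega, rfl⟩
    · rintro ⟨j, h1, h2⟩
      omega
  · intro a _ b _ hab
    rw [Function.onFun, disjoint_left]
    intro T h1 h2
    rw [mem_filter] at h1 h2
    exact hab (h1.2.symm.trans h2.2)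

theorem K_zero (j : ℕ) : K n j 0 = n.choose j := by
  unfold K
  rw [sum_range_succ', sum_eq_zero]
  · simp
  · intro i _
    simp

theorem cube (D : ℕ) (κ v : ℝ) (hv : v = ((∑ j ∈ range (D + 1), n.choose j : ℕ) : ℝ)) (hκ : 0 ≤ κ)
    (hK : ∀ x : ℕ, 1 ≤ x → x ≤ n → -(κ * v) ≤ ((∑ j ∈ range (D + 1), K n j x : ℤ) : ℝ))
    (f : (Fin n → Bool) → ℝ) (hf : ∀ x, 0 ≤ f x ∧ f x ≤ 1) :
    v * ((∑ x, f x) ^ 2 - κ * (2 ^ n * ∑ x, f x)) ≤ 2 ^ n * ∑ x, f x * ∑ y with hammingDist x y ≤ D, f y := by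
  rw [← pairs]
  have hv0 : 0 ≤ v := by rw [hv]; exact Nat.cast_nonneg _
  have h0 : lam D (∅ : Finset (Fin n)) = v := by
    rw [lam_eq, card_empty, sum_congr rfl fun j _ => K_zero (n := n) j, hv]
    push_cast
    rfl
  have hft0 : ft f ∅ = ∑ x, f x := by
    unfold ft
    simp
  have hlow : ∀ S : Finset (Fin n), S ≠ ∅ → -(κ * v) ≤ lam D S := by
    intro S hS
    rw [lam_eq]
    apply hK
    · exact Finset.one_le_card.2 (nonempty_iff_ne_empty.2 hS)
    · calc #S ≤ #(univ : Finset (Fin n)) := card_le_univ S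
        _ = n := by rw [card_univ, Fintype.card_fin]
  have h1 : v * ft f ∅ ^ 2 - κ * v * ∑ S, ft f S ^ 2 ≤ ∑ S, ft f S ^ 2 * lam D S := by
    rw [← Finset.add_sum_erase univ (fun S => ft f S ^ 2 * lam D S) (mem_univ ∅),
      ← Finset.add_sum_erase univ (fun S => ft f S ^ 2) (mem_univ ∅), h0]
    have h2 : -(κ * v) * ∑ S ∈ univ.erase ∅, ft f S ^ 2 ≤ ∑ S ∈ univ.erase ∅, ft f S ^ 2 * lam D S := by
      rw [mul_sum]
      refine sum_le_sum fun S hS => ?_
      rw [mul_comm]
      exact mul_le_mul_of_nonneg_left (hlow S (ne_of_mem_erase hS)) (sq_nonneg _)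
    have h3 : 0 ≤ κ * v * ft f ∅ ^ 2 := by positivity
    nlinarith
  have h2 : ∑ x, f x ^ 2 ≤ ∑ x, f x := by
    refine sum_le_sum fun x _ => ?_
    have := hf x
    nlinarith
  rw [parseval, hft0] at h1
  have h3 : κ * v * (2 ^ n * ∑ x, f x ^ 2) ≤ κ * v * (2 ^ n * ∑ x, f x) := by gcongr
  linarith

end Pool.Agent.N368.CG
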