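import Pool.Agent.N549.CG.Stm
import Pool.Agent.N368.CG.Cube0

set_option autoImplicit false

/-!
Supersaturation in the cube from the Krawtchouk polynomials (project HG of helper549).
-/

namespace Pool.Agent.N368.CG

open Finset

theorem cube_main : Pool.Agent.N549.CG.S_CUBE := by
  intro n D κ hκ hK f hf
  exact cube D κ (Pool.Agent.N549.CG.V n D : ℝ) rfl hκ hK f hf

end Pool.Agent.N368.CG
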